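import Pool.Agent.H7.Heil.Basic

/-!
Heilbronn class functions: calculus with commutative subgroups and their normalisers.
-/

open Finset

namespace Pool.Agent.H98.GL

open Pool.Agent.H7.HB

variable {G : Type} [Group G] {θ : G → ℂ}

/-- A subgroup is commutative. -/
def IsComm (A : Subgroup G) : Prop := ∀ x ∈ A, ∀ y ∈ A, x * y = y * x

/-- the commutative group structure on a commutative subgroup -/
@[reducible] def commGrp (A : Subgroup G) (hA : IsComm A) : CommGroup A :=
  { (inferInstance : Group A) with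
    mul_comm := fun a b => Subtype.ext (hA a a.2 b b.2) }

/-- an element normalises a subgroup -/
def Nrm (g : G) (A : Subgroup G) : Prop := ∀ x ∈ A, g * x * g⁻¹ ∈ A

/-- conjugation by a normalising element, as an endomorphism -/
noncomputable def conjHom (A : Subgroup G) (g : G) (hg : Nrm g A) : A →* A where
  toFun := fun x => ⟨g * x * g⁻¹, hg x x.2⟩
  map_one' := by ext; simp
  map_mul' := fun x y => by ext; simp [mul_assoc]

theorem conjHom_bij [Finite G] (A : Subgroup G) (g : G) (hg : Nrm g A) :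
    Function.Bijective (conjHom A g hg) := by
  apply Finite.injective_iff_bijective.1
  intro x y hxy
  have : g * (x : G) * g⁻¹ = g * (y : G) * g⁻¹ := congrArg Subtype.val hxy
  exact Subtype.ext (mul_left_cancel (mul_right_cancel this))

/-- conjugation by a normalising element -/
noncomputable def conjAut [Finite G] (A : Subgroup G) (g : G) (hg : Nrm g A) : MulAut A :=
  MulEquiv.ofBijective (conjHom A g hg) (conjHom_bij A g hg)

theorem conjAut_spec [Finite G] (A : Subgroup G) (g : G) (hg : Nrm g A) (x : A) :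
    g * (x : G) * g⁻¹ = ((conjAut A g hg x : A) : G) := rfl

/-- multiplication by a trivial element of a commutative subgroup normalised by `g` -/
theorem heil_split [Finite G] (h : Heil θ) (A : Subgroup G) (hA : IsComm A) (g : G)
    (hg : Nrm g A) (z : G) (hz : z ∈ A) (hzt : θ z = θ 1) : θ (z * g) = θ g := by
  classical
  let _ : CommGroup A := commGrp A hA
  have : Finite A := inferInstance
  let _ : Fintype A := Fintype.ofFinite A
  have := split h A.subtype g (conjAut A g hg) (fun e => rfl) ⟨z, hz⟩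
    (fun κ hκ _ => ker_char h A.subtype (a := ⟨z, hz⟩) (by simpa using hzt) hκ) 1
  simpa using this

/-- a trivial element normalising a commutative subgroup -/
theorem heil_four [Finite G] (h : Heil θ) (A : Subgroup G) (hA : IsComm A) (g : G)
    (hg : Nrm g A) (hgt : θ g = θ 1) (e : G) (he : e ∈ A) : θ (e * g) = θ e := by
  classical
  let _ : CommGroup A := commGrp A hA
  have : Finite A := inferInstance
  let _ : Fintype A := Fintype.ofFinite A
  let φ : A →* G := A.subtype
  have hle : ∀ κ : A →* ℂˣ, ‖coef (fun e => θ (φ e * g)) κ‖ ≤ mult h φ κ :=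
    fun κ => norm_coef_le h φ g (conjAut A g hg) (fun e => rfl) κ
  have h1 : ∑ κ : A →* ℂˣ, coef (fun e => θ (φ e * g)) κ = ∑ κ : A →* ℂˣ, (mult h φ κ : ℂ) := by
    have h2 := inversion (fun e => θ (φ e * g)) 1
    have h3 := expand h φ 1
    simp only [map_one, one_mul, Units.val_one, mul_one] at h2 h3
    rw [← h2, ← h3, hgt]
  have h4 : ∀ κ : A →* ℂˣ, coef (fun e => θ (φ e * g)) κ = (mult h φ κ : ℂ) := by
    have h5 : ∑ κ : A →* ℂˣ, ((mult h φ κ : ℝ) - (coef (fun e => θ (φ e * g)) κ).re) = 0 := by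
      have := congrArg Complex.re h1
      simp only [Complex.re_sum, Complex.natCast_re] at this
      rw [Finset.sum_sub_distrib, this, sub_self]
    have h6 : ∀ κ ∈ (Finset.univ : Finset (A →* ℂˣ)),
        0 ≤ ((mult h φ κ : ℝ) - (coef (fun e => θ (φ e * g)) κ).re) := by
      intro κ _
      have := (Complex.re_le_norm (coef (fun e => θ (φ e * g)) κ)).trans (hle κ)
      linarith
    have h7 := (Finset.sum_eq_zero_iff_of_nonneg h6).1 h5
    intro κ
    have h8 := h7 κ (Finset.mem_univ _)
    have h9 := hle κ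
    have h10 : (coef (fun e => θ (φ e * g)) κ).re = mult h φ κ := by linarith
    have h11 : (coef (fun e => θ (φ e * g)) κ).im = 0 := by
      have h12 := Complex.sq_norm (coef (fun e => θ (φ e * g)) κ)
      rw [Complex.normSq_apply, h10] at h12
      have h13 : ‖coef (fun e => θ (φ e * g)) κ‖ ^ 2 ≤ (mult h φ κ : ℝ) ^ 2 :=
        pow_le_pow_left₀ (norm_nonneg _) h9 2
      nlinarith
    apply Complex.ext
    · simpa using h10
    · simpa using h11
  have h14 := inversion (fun e => θ (φ e * g)) ⟨e, he⟩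
  have h15 := expand h φ ⟨e, he⟩
  simp_rw [h4] at h14
  have h16 : θ (φ ⟨e, he⟩ * g) = θ (φ ⟨e, he⟩) := by
    rw [h15, ← h14]
  exact h16

/-- If all nonidentity elements of a commutative group have the same value and the degree is small
then they are all trivial. -/
theorem heil_const (h : Heil θ) {A : Type} [CommGroup A] [Fintype A] (φ : A →* G) (t : ℂ)
    (ht : ∀ a, a ≠ 1 → θ (φ a) = t) (r : ℕ) (hr : θ 1 = r) (hlt : r < Fintype.card A - 1)
    (a : A) : θ (φ a) = θ 1 := by
  classical
  by_cases ha : a = 1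
  · rw [ha, map_one]
  rw [ht a ha]
  have hA : Nontrivial A := ⟨a, 1, ha⟩
  -- a nontrivial character
  have hcard : (0 : ℝ) < Fintype.card A := by exact_mod_cast Fintype.card_pos
  have hcard' : (Fintype.card A : ℂ) ≠ 0 := by exact_mod_cast (Fintype.card_ne_zero)
  -- coefficient at a nontrivial character
  have key : ∀ κ : A →* ℂˣ, κ ≠ 1 → (mult h φ κ : ℂ) * (Fintype.card A : ℂ) = r - t := by
    intro κ hκ
    rw [← mult_sum h φ κ]
    have h1 : ∑ a : A, θ (φ a) * (((κ a)⁻¹ : ℂˣ) : ℂ)
        = ∑ a : A, (t * (((κ a)⁻¹ : ℂˣ) : ℂ) + if a = 1 then ((r : ℂ) - t) else 0) := by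
      refine Finset.sum_congr rfl fun b _ => ?_
      by_cases hb : b = 1
      · subst hb
        simp [hr]
      · rw [ht b hb, if_neg hb, add_zero]
    rw [h1, Finset.sum_add_distrib, ← Finset.mul_sum]
    have h2 : ∑ b : A, (((κ b)⁻¹ : ℂˣ) : ℂ) = 0 := by
      obtain ⟨c, hc⟩ : ∃ c, κ c ≠ 1 := by
        by_contra hcon
        push Not at hcon
        exact hκ (MonoidHom.ext hcon)
      have h3 : ∑ b : A, (((κ b)⁻¹ : ℂˣ) : ℂ)
          = (((κ c)⁻¹ : ℂˣ) : ℂ) * ∑ b : A, (((κ b)⁻¹ : ℂˣ) : ℂ) := by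
        conv_lhs => rw [← Equiv.sum_comp (Equiv.mulLeft c)]
        rw [Finset.mul_sum]
        refine Finset.sum_congr rfl fun b _ => ?_
        simp only [Equiv.coe_mulLeft, map_mul, mul_inv, Units.val_mul]
      have h4 : (1 - (((κ c)⁻¹ : ℂˣ) : ℂ)) * ∑ b : A, (((κ b)⁻¹ : ℂˣ) : ℂ) = 0 := by
        rw [sub_mul, one_mul, ← h3, sub_self]
      rcases mul_eq_zero.1 h4 with h5 | h5
      · exfalso
        apply hc
        have h6 : (((κ c)⁻¹ : ℂˣ) : ℂ) = 1 := (sub_eq_zero.1 h5).symm
        have h7 : (κ c)⁻¹ = 1 := Units.ext h6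
        exact inv_eq_one.1 h7
      · exact h5
    rw [h2, mul_zero, zero_add, Finset.sum_ite_eq' Finset.univ 1]
    simp
  -- all nontrivial multiplicities are equal
  obtain ⟨κ₀, hκ₀'⟩ := exists_char_ne_one ha
  have hκ₀ : κ₀ ≠ 1 := by
    rintro rfl
    exact hκ₀' rfl

  set k := mult h φ κ₀ with hk
  have h1 := key κ₀ hκ₀
  rw [← hk] at h1
  have h2 := mult_sum h φ 1
  have h3 : ∑ a : A, θ (φ a) * ((((1 : A →* ℂˣ) a)⁻¹ : ℂˣ) : ℂ)
      = (Fintype.card A : ℂ) * t + ((r : ℂ) - t) := by
    have h1 : ∑ a : A, θ (φ a) * ((((1 : A →* ℂˣ) a)⁻¹ : ℂˣ) : ℂ)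
        = ∑ a : A, (t + if a = 1 then ((r : ℂ) - t) else 0) := by
      refine Finset.sum_congr rfl fun b _ => ?_
      by_cases hb : b = 1
      · subst hb
        simp [hr]
      · rw [ht b hb, if_neg hb, add_zero]
        simp
    rw [h1, Finset.sum_add_distrib, Finset.sum_ite_eq' Finset.univ 1]
    simp
  rw [h3] at h2
  have hge : (Fintype.card A - 1) * k ≤ r := by
    have h4 : ((mult h φ 1 : ℂ) + ((Fintype.card A : ℂ) - 1) * k) * (Fintype.card A : ℂ)
        = r * (Fintype.card A : ℂ) := by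
      have h5 : t = r - k * (Fintype.card A : ℂ) := by rw [h1]; ring
      rw [add_mul, ← h2, h5]
      ring
    have h5 := mul_right_cancel₀ hcard' h4
    have h6 : 1 ≤ Fintype.card A := Fintype.card_pos
    have h7 : (((mult h φ 1 + (Fintype.card A - 1) * k : ℕ)) : ℂ) = (r : ℂ) := by
      rw [← h5]
      push_cast [Nat.cast_sub h6]
      ring
    have h8 : mult h φ 1 + (Fintype.card A - 1) * k = r := by exact_mod_cast h7
    omega
  have hk0 : k = 0 := by
    by_contra hk0
    have : 1 ≤ k := Nat.one_le_iff_ne_zero.2 hk0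
    have h2 : Fintype.card A - 1 ≤ (Fintype.card A - 1) * k := Nat.le_mul_of_pos_right _ this
    omega
  rw [hk0, Nat.cast_zero, zero_mul] at h1
  rw [hr]
  exact (sub_eq_zero.1 h1.symm).symm

end Pool.Agent.H98.GL
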